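import Mathlib

/-!
# MP_12a8d1_co, Q1 and Q2

The identity `∑ (1/p;1/q)_n = ∑ (p/q)^{n+1} (1/q;1/q)_n` holds in `ℂ[[p-p₀,q-q₀]]` whenever
`p₀, q₀` are roots of unity and both sides converge there.
-/

namespace Pool.Agent.Q35.IntOrd

open Finset

/-! ### Ring identities for the partial sums -/

section Ring

variable {R : Type*} [CommRing R]

/-- `(z; y)_n`. -/
def poch (z y : R) (n : ℕ) : R := ∏ k ∈ range n, (1 - z * y ^ k)

/-- `∑_{t<n} (y w)^{t+1} (y;y)_t`. -/
def G (y w : R) (n : ℕ) : R := ∑ t ∈ range n, (y * w) ^ (t + 1) * poch y y t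

lemma poch_succ (z y : R) (n : ℕ) : poch z y (n + 1) = poch z y n * (1 - z * y ^ n) := by
  unfold poch; rw [prod_range_succ]

lemma G_succ (y w : R) (n : ℕ) : G y w (n + 1) = G y w n + (y * w) ^ (n + 1) * poch y y n := by
  unfold G; rw [sum_range_succ]

/-- The functional equation with its boundary term. -/
lemma G_rel (y q z w : R) (hq : q * y = 1) (hz : z * w = 1) (n : ℕ) :
    G y w n = 1 + (1 - z) * G y (w * q) n - w ^ n * poch y y n := by
  have hw : y * (w * q) = w := by
    calc y * (w * q) = w * (q * y) := by ring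
      _ = w := by rw [hq, mul_one]
  induction n with
  | zero => simp [G, poch]
  | succ n ih =>
    rw [G_succ, G_succ, ih, poch_succ, hw]
    have : z * w ^ (n + 1) = w ^ n := by
      rw [pow_succ]
      calc z * (w ^ n * w) = w ^ n * (z * w) := by ring
        _ = w ^ n := by rw [hz, mul_one]
    linear_combination (poch y y n) * (this)

lemma G_iter (y q x p : R) (hq : q * y = 1) (hp : x * p = 1) (n M : ℕ) :
    G y p n = ∑ j ∈ range M, poch x y j + poch x y M * G y (p * q ^ M) n
      - poch y y n * ∑ j ∈ range M, poch x y j * (p * q ^ j) ^ n := by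
  induction M with
  | zero => simp [poch]
  | succ M ih =>
    rw [ih, sum_range_succ, sum_range_succ, poch_succ]
    have hz : (x * y ^ M) * (p * q ^ M) = 1 := by
      calc (x * y ^ M) * (p * q ^ M) = (x * p) * (q * y) ^ M := by rw [mul_pow]; ring
        _ = 1 := by rw [hp, hq]; simp
    have h := G_rel y q (x * y ^ M) (p * q ^ M) hq hz n
    have e : p * q ^ M * q = p * q ^ (M + 1) := by ring
    rw [e] at h
    rw [h]
    ring

lemma partial_diff (y q x p : R) (hq : q * y = 1) (hp : x * p = 1) (n : ℕ) :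
    ∑ j ∈ range n, poch x y j - G y p n =
      poch y y n * (∑ j ∈ range n, poch x y j * (p * q ^ j) ^ n)
      - poch x y n * G y (p * q ^ n) n := by
  rw [G_iter y q x p hq hp n n]; ring

end Ring

/-! ### The formal expansions at `(p₀, q₀)` -/

noncomputable section

/-- The ring `ℂ[[p - p₀, q - q₀]]`; the variables are `u = X 0`, `v = X 1`. -/
abbrev A : Type := MvPowerSeries (Fin 2) ℂ

/-- `p = p₀ + u`. -/
def pS (p₀ : ℂ) : A := MvPowerSeries.C p₀ + MvPowerSeries.X 0

/-- `q = q₀ + v`. -/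
def qS (q₀ : ℂ) : A := MvPowerSeries.C q₀ + MvPowerSeries.X 1

/-- The `n`-th summand `(1/p; 1/q)_n` of the left side of (1), expanded at `(p₀, q₀)`. -/
def lhs1 (p₀ q₀ : ℂ) (n : ℕ) : A :=
  ∏ k ∈ range n, (1 - (pS p₀)⁻¹ * ((qS q₀)⁻¹) ^ k)

/-- The `n`-th summand `(p/q)^{n+1} (1/q; 1/q)_n` of the right side of (1). -/
def rhs1 (p₀ q₀ : ℂ) (n : ℕ) : A :=
  (pS p₀ * (qS q₀)⁻¹) ^ (n + 1) * ∏ k ∈ range n, (1 - (qS q₀)⁻¹ * ((qS q₀)⁻¹) ^ k)

/-- A sum converges if each monomial has a nonzero coefficient in only finitely many summands. -/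
def Converges (f : ℕ → A) : Prop := ∀ m : Fin 2 →₀ ℕ, {n | MvPowerSeries.coeff m (f n) ≠ 0}.Finite

/-- The coefficientwise sum. -/
def value (f : ℕ → A) : A := fun m => ∑ᶠ n, MvPowerSeries.coeff m (f n)

lemma order_prod (f : ℕ → A) (a k : ℕ) (hk : 0 < k)
    (hf : ∀ s, MvPowerSeries.constantCoeff (f (a + k * s)) = 0) :
    ∀ N n : ℕ, a + k * N ≤ n → (N : ℕ∞) ≤ (∏ t ∈ range n, f t).order := by
  intro N
  induction N with
  | zero => intro n _; simp
  | succ N ih =>
    intro n hn
    have h1 := ih (a + k * N) le_rfl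
    have hlt : a + k * N < n := by
      have : k * (N + 1) = k * N + k := by ring
      omega
    have e : ∏ t ∈ range n, f t = (∏ t ∈ range (a + k * N), f t) *
        (f (a + k * N) * ∏ t ∈ Ico (a + k * N + 1) n, f t) := by
      rw [← prod_range_mul_prod_Ico f hlt.le, prod_eq_prod_Ico_succ_bot hlt]
    rw [e]
    have h2 : (1 : ℕ∞) ≤ (f (a + k * N)).order := by
      rw [MvPowerSeries.one_le_order_iff_constCoeff_eq_zero]
      exact hf N
    calc ((N + 1 : ℕ) : ℕ∞) = N + 1 := by push_cast; rfl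
      _ ≤ (∏ t ∈ range (a + k * N), f t).order + (f (a + k * N)).order := add_le_add h1 h2
      _ ≤ (∏ t ∈ range (a + k * N), f t).order +
          (f (a + k * N) * ∏ t ∈ Ico (a + k * N + 1) n, f t).order := by
          gcongr
          exact le_trans le_self_add MvPowerSeries.le_order_mul
      _ ≤ _ := MvPowerSeries.le_order_mul

lemma coeff_mul_eq_zero (f g : A) (m : Fin 2 →₀ ℕ) (N : ℕ) (hN : m.degree < N)
    (h : (N : ℕ∞) ≤ f.order) : MvPowerSeries.coeff m (f * g) = 0 := by
  apply MvPowerSeries.coeff_of_lt_order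
  calc (m.degree : ℕ∞) < N := by exact_mod_cast hN
    _ ≤ f.order := h
    _ ≤ f.order + g.order := le_self_add
    _ ≤ _ := MvPowerSeries.le_order_mul

lemma value_eq (f : ℕ → A) (m : Fin 2 →₀ ℕ) (n : ℕ)
    (h : ∀ j, n ≤ j → MvPowerSeries.coeff m (f j) = 0) :
    value f m = MvPowerSeries.coeff m (∑ j ∈ range n, f j) := by
  unfold value
  rw [finsum_eq_sum_of_support_subset (s := range n), map_sum]
  intro j hj
  rw [Function.mem_support] at hj
  by_contra hc
  exact hj (h j (by simpa using hc))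

theorem one_main (k : ℕ) (hk : 1 ≤ k) (p₀ q₀ : ℂ) (hp : p₀ ^ k = 1) (hq : q₀ ^ k = 1)
    (hL : Converges (lhs1 p₀ q₀)) : value (lhs1 p₀ q₀) = value (rhs1 p₀ q₀) := by
  have hk0 : k ≠ 0 := by omega
  have hp0 : p₀ ≠ 0 := by rintro rfl; simp [hk0] at hp
  have hq0 : q₀ ≠ 0 := by rintro rfl; simp [hk0] at hq
  have hcp : MvPowerSeries.constantCoeff (pS p₀) = p₀ := by simp [pS]
  have hcq : MvPowerSeries.constantCoeff (qS q₀) = q₀ := by simp [qS]
  have hpx : pS p₀ * (pS p₀)⁻¹ = 1 := MvPowerSeries.mul_inv_cancel _ (by rw [hcp]; exact hp0)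
  have hqy : qS q₀ * (qS q₀)⁻¹ = 1 := MvPowerSeries.mul_inv_cancel _ (by rw [hcq]; exact hq0)
  set x := (pS p₀)⁻¹ with hx
  set y := (qS q₀)⁻¹ with hy
  have hcx : MvPowerSeries.constantCoeff x = p₀⁻¹ := by
    have := congrArg MvPowerSeries.constantCoeff hpx
    rw [map_mul, hcp, map_one] at this
    field_simp; linear_combination this
  have hcy : MvPowerSeries.constantCoeff y = q₀⁻¹ := by
    have := congrArg MvPowerSeries.constantCoeff hqy
    rw [map_mul, hcq, map_one] at this
    field_simp; linear_combination this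
  have hl : ∀ n, lhs1 p₀ q₀ n = poch x y n := fun n => rfl
  have hr : ∀ n, rhs1 p₀ q₀ n = (y * pS p₀) ^ (n + 1) * poch y y n := by
    intro n; unfold rhs1 poch; rw [mul_comm (pS p₀)]
  -- some factor of the left side vanishes at the origin
  obtain ⟨i, hi⟩ : ∃ i : ℕ, p₀⁻¹ * q₀⁻¹ ^ i = 1 := by
    by_contra hcon
    push Not at hcon
    have : {n | MvPowerSeries.coeff (0 : Fin 2 →₀ ℕ) (lhs1 p₀ q₀ n) ≠ 0} = Set.univ := by
      ext n
      simp only [Set.mem_ofPred_eq, Set.mem_univ, iff_true]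
      rw [MvPowerSeries.coeff_zero_eq_constantCoeff_apply, hl, poch, map_prod]
      rw [Finset.prod_ne_zero_iff]
      intro t _
      rw [map_sub, map_one, map_mul, map_pow, hcx, hcy]
      intro h0
      exact hcon t (by linear_combination -h0)
    have h2 := hL 0
    rw [this] at h2
    exact Set.infinite_univ h2
  have hyk : q₀⁻¹ ^ k = 1 := by rw [inv_pow, hq, inv_one]
  have hfx : ∀ s, MvPowerSeries.constantCoeff ((fun t => 1 - x * y ^ t) (i + k * s)) = 0 := by
    intro s
    simp only [map_sub, map_one, map_mul, map_pow, hcx, hcy]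
    rw [pow_add, pow_mul, hyk, one_pow, mul_one, hi, sub_self]
  have hfy : ∀ s, MvPowerSeries.constantCoeff ((fun t => 1 - y * y ^ t) ((k - 1) + k * s)) = 0 := by
    intro s
    simp only [map_sub, map_one, map_mul, map_pow, hcy]
    have : q₀⁻¹ * q₀⁻¹ ^ (k - 1 + k * s) = 1 := by
      rw [← pow_succ']
      have : k - 1 + k * s + 1 = k * (s + 1) := by
        have : k * (s + 1) = k * s + k := by ring
        omega
      rw [this, pow_mul, hyk, one_pow]
    rw [this, sub_self]
  have hox := order_prod (fun t => 1 - x * y ^ t) i k hk hfx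
  have hoy := order_prod (fun t => 1 - y * y ^ t) (k - 1) k hk hfy
  funext m
  set N := m.degree + 1 with hN
  set n₀ := max (i + k * N) ((k - 1) + k * N) with hn₀
  have hcx' : ∀ n, n₀ ≤ n → ∀ g, MvPowerSeries.coeff m (poch x y n * g) = 0 := by
    intro n hn g
    exact coeff_mul_eq_zero _ g m N (by omega) (hox N n (by omega))
  have hcy' : ∀ n, n₀ ≤ n → ∀ g, MvPowerSeries.coeff m (poch y y n * g) = 0 := by
    intro n hn g
    exact coeff_mul_eq_zero _ g m N (by omega) (hoy N n (by omega))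
  rw [value_eq _ m n₀ (fun j hj => by rw [hl, ← mul_one (poch x y j)]; exact hcx' j hj 1),
    value_eq _ m n₀ (fun j hj => by rw [hr, mul_comm]; exact hcy' j hj _)]
  have hdiff := partial_diff y (qS q₀) x (pS p₀) hqy (by rw [mul_comm]; exact hpx) n₀
  have e1 : ∑ j ∈ range n₀, lhs1 p₀ q₀ j = ∑ j ∈ range n₀, poch x y j :=
    sum_congr rfl fun j _ => hl j
  have e2 : ∑ j ∈ range n₀, rhs1 p₀ q₀ j = G y (pS p₀) n₀ :=
    sum_congr rfl fun j _ => hr j
  rw [e1, e2]
  have h3 := congrArg (MvPowerSeries.coeff m) hdiff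
  rw [map_sub, map_sub, hcy' n₀ le_rfl, hcx' n₀ le_rfl, sub_zero] at h3
  exact sub_eq_zero.mp h3

/-! ### Question 2 -/

section Ring2

variable {R : Type*} [CommRing R]

/-- `∑_{j<n} w q^j (w;q)_j (q;q)_j`. -/
def L (q w : R) (n : ℕ) : R := ∑ j ∈ range n, w * q ^ j * poch w q j * poch q q j

lemma poch_succ' (z y : R) (n : ℕ) : poch z y (n + 1) = (1 - z) * poch (z * y) y n := by
  unfold poch
  rw [prod_range_succ']
  rw [mul_comm]
  congr 1
  · simp
  · apply prod_congr rfl
    intro k _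
    ring

lemma L_rel (q w : R) (n : ℕ) :
    w * L q w n = w + (w - 1) * L q (w * q) n - w * poch w q n * poch q q n := by
  induction n with
  | zero => simp [L, poch]
  | succ n ih =>
    have h1 : L q w (n + 1) = L q w n + w * q ^ n * poch w q n * poch q q n := by
      unfold L; rw [sum_range_succ]
    have h2 : L q (w * q) (n + 1) = L q (w * q) n
        + w * q * q ^ n * poch (w * q) q n * poch q q n := by
      unfold L; rw [sum_range_succ]
    have h3 : (1 - w) * poch (w * q) q n = poch w q n * (1 - w * q ^ n) := by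
      rw [← poch_succ', poch_succ]
    rw [h1, h2, poch_succ w q n, poch_succ q q n]
    linear_combination ih + (w * q * q ^ n * poch q q n) * h3

lemma G_rel' (y q w : R) (hq : q * y = 1) (n : ℕ) :
    w * G y w n = w + (w - 1) * G y (w * q) n - w ^ (n + 1) * poch y y n := by
  have hw : y * (w * q) = w := by
    calc y * (w * q) = w * (q * y) := by ring
      _ = w := by rw [hq, mul_one]
  induction n with
  | zero => simp [G, poch]
  | succ n ih =>
    rw [G_succ, G_succ, poch_succ, hw]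
    linear_combination ih

/-- Modulo `V`, the difference of the two sides at `p` is divisible by `p ^ N` for all `N`. -/
lemma diff_mem (y q p V : R) (hq : q * y = 1) (n N : ℕ) (h1 : V ∣ poch q q n)
    (h2 : V ∣ poch y y n) (i : ℕ) :
    L q (p * y ^ N * q ^ i) n - G y (p * y ^ N * q ^ i) n ∈ Ideal.span {p ^ i, V} := by
  induction i with
  | zero =>
    have : Ideal.span {p ^ 0, V} = (⊤ : Ideal R) := by
      rw [Ideal.eq_top_iff_one]
      apply Ideal.subset_span
      simp
    rw [this]; trivial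
  | succ i ih =>
    set w := p * y ^ N * q ^ i with hw
    have e : p * y ^ N * q ^ (i + 1) = w * q := by rw [hw, pow_succ]; ring
    rw [e]
    set I := Ideal.span {p ^ (i + 1), V} with hI
    have hpI : p ^ (i + 1) ∈ I := Ideal.subset_span (by simp)
    have hVI : V ∈ I := Ideal.subset_span (by simp)
    have hε1 : poch q q n ∈ I := Ideal.mem_of_dvd I h1 hVI
    have hε2 : poch y y n ∈ I := Ideal.mem_of_dvd I h2 hVI
    have hL := L_rel q w n
    have hG := G_rel' y q w hq n
    -- `w Δ(w) ∈ I`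
    have hwΔ : w * (L q w n - G y w n) ∈ I := by
      rw [Ideal.mem_span_pair] at ih
      obtain ⟨a, b, hab⟩ := ih
      rw [← hab]
      have : w * (a * p ^ i + b * V) = (a * (y ^ N * q ^ i)) * p ^ (i + 1) + (w * b) * V := by
        rw [hw]; ring
      rw [this]
      exact I.add_mem (I.mul_mem_left _ hpI) (I.mul_mem_left _ hVI)
    have h4 : (1 - w) * (L q (w * q) n - G y (w * q) n) ∈ I := by
      have : (1 - w) * (L q (w * q) n - G y (w * q) n)
          = - (w * (L q w n - G y w n)) + w ^ (n + 1) * poch y y n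
            - w * poch w q n * poch q q n := by
        linear_combination hL - hG
      rw [this]
      exact I.sub_mem (I.add_mem (I.neg_mem hwΔ) (I.mul_mem_left _ hε2)) (I.mul_mem_left _ hε1)
    have h5 : (1 - w ^ (i + 1)) * (L q (w * q) n - G y (w * q) n) ∈ I := by
      have : (1 - w ^ (i + 1)) = (∑ t ∈ range (i + 1), w ^ t) * (1 - w) := by
        rw [geom_sum_mul_neg]
      rw [this, mul_assoc]
      exact I.mul_mem_left _ h4
    have h6 : w ^ (i + 1) * (L q (w * q) n - G y (w * q) n) ∈ I := by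
      have : w ^ (i + 1) = (y ^ N * q ^ i) ^ (i + 1) * p ^ (i + 1) := by
        rw [hw]; rw [← mul_pow]; congr 1; ring
      rw [this, mul_comm, ← mul_assoc]
      exact I.mul_mem_left _ hpI
    have := I.add_mem h5 h6
    have e2 : (1 - w ^ (i + 1)) * (L q (w * q) n - G y (w * q) n)
        + w ^ (i + 1) * (L q (w * q) n - G y (w * q) n) = L q (w * q) n - G y (w * q) n := by ring
    rwa [e2] at this

lemma dvd_prod (f : ℕ → R) (V : R) (a k : ℕ) (hk : 0 < k) (hf : ∀ s, V ∣ f (a + k * s)) :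
    ∀ N n : ℕ, a + k * N ≤ n → V ^ N ∣ ∏ t ∈ range n, f t := by
  intro N
  induction N with
  | zero => intro n _; simp
  | succ N ih =>
    intro n hn
    have h1 := ih (a + k * N) le_rfl
    have hlt : a + k * N < n := by
      have : k * (N + 1) = k * N + k := by ring
      omega
    rw [← prod_range_mul_prod_Ico f hlt.le, prod_eq_prod_Ico_succ_bot hlt, ← mul_assoc, pow_succ]
    exact Dvd.dvd.mul_right (mul_dvd_mul h1 (hf N)) _

end Ring2

/-- The ring `ℂ[p][[q - q₀]]`; its variable is `v = q - q₀`. -/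
abbrev B : Type := PowerSeries (Polynomial ℂ)

/-- The indeterminate `p`. -/
def pB : B := PowerSeries.C Polynomial.X

/-- `q = q₀ + v`. -/
def qB (q₀ : ℂ) : B := PowerSeries.C (Polynomial.C q₀) + PowerSeries.X

/-- The expansion of `1/q` at `q₀ ≠ 0`. -/
def qInv (q₀ : ℂ) : B := PowerSeries.map Polynomial.C (PowerSeries.C q₀ + PowerSeries.X)⁻¹

/-- The `n`-th summand `p q^n (p;q)_n (q;q)_n` of the left side of (2). -/
def lhs2 (q₀ : ℂ) (n : ℕ) : B :=
  pB * qB q₀ ^ n * (∏ k ∈ range n, (1 - pB * qB q₀ ^ k)) * ∏ k ∈ range n, (1 - qB q₀ * qB q₀ ^ k)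

/-- The `n`-th summand `(p/q)^{n+1} (1/q;1/q)_n` of the right side of (2). -/
def rhs2 (q₀ : ℂ) (n : ℕ) : B :=
  (pB * qInv q₀) ^ (n + 1) * ∏ k ∈ range n, (1 - qInv q₀ * qInv q₀ ^ k)

/-- A sum in `ℂ[p][[v]]` converges if each power of `v` has a nonzero coefficient in only finitely
many summands. -/
def Converges2 (f : ℕ → B) : Prop := ∀ j : ℕ, {n | PowerSeries.coeff j (f n) ≠ 0}.Finite

/-- The coefficientwise sum. -/
def value2 (f : ℕ → B) : B := PowerSeries.mk fun j => ∑ᶠ n, PowerSeries.coeff j (f n)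

lemma qB_mul_qInv (q₀ : ℂ) (h : q₀ ≠ 0) : qB q₀ * qInv q₀ = 1 := by
  have h1 : (PowerSeries.C q₀ + PowerSeries.X : PowerSeries ℂ)
      * (PowerSeries.C q₀ + PowerSeries.X)⁻¹ = 1 :=
    PowerSeries.mul_inv_cancel _ (by simpa using h)
  have h2 : qB q₀ = PowerSeries.map Polynomial.C (PowerSeries.C q₀ + PowerSeries.X) := by
    unfold qB; rw [map_add, PowerSeries.map_C, PowerSeries.map_X]
  rw [h2]; unfold qInv
  rw [← map_mul, h1, map_one]

theorem two_main (k : ℕ) (hk : 1 ≤ k) (q₀ : ℂ) (hq : q₀ ^ k = 1) :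
    Converges2 (lhs2 q₀) ∧ Converges2 (rhs2 q₀) ∧ value2 (lhs2 q₀) = value2 (rhs2 q₀) := by
  have hk0 : k ≠ 0 := by omega
  have hq0 : q₀ ≠ 0 := by rintro rfl; simp [hk0] at hq
  have hqy := qB_mul_qInv q₀ hq0
  have hcq : PowerSeries.constantCoeff (qB q₀) = Polynomial.C q₀ := by simp [qB]
  have hcy : PowerSeries.constantCoeff (qInv q₀) ^ k = 1 := by
    have h1 := congrArg PowerSeries.constantCoeff hqy
    rw [map_mul, hcq, map_one] at h1
    have h2 := congrArg (· ^ k) h1
    simp only [mul_pow, one_pow] at h2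
    rw [← Polynomial.C_pow, hq, Polynomial.C_1, one_mul] at h2
    exact h2
  have hcq' : PowerSeries.constantCoeff (qB q₀) ^ k = 1 := by
    rw [hcq, ← Polynomial.C_pow, hq, Polynomial.C_1]
  have key : ∀ z : B, PowerSeries.constantCoeff z ^ k = 1 →
      ∀ N n : ℕ, (k - 1) + k * N ≤ n → (PowerSeries.X : B) ^ N ∣ poch z z n := by
    intro z hz
    apply dvd_prod (fun t => 1 - z * z ^ t) PowerSeries.X (k - 1) k hk
    intro s
    rw [PowerSeries.X_dvd_iff]
    rw [← pow_succ', map_sub, map_one, map_pow]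
    have : k - 1 + k * s + 1 = k * (s + 1) := by
      have : k * (s + 1) = k * s + k := by ring
      omega
    rw [this, pow_mul, hz, one_pow, sub_self]
  have hl : ∀ n, lhs2 q₀ n = pB * qB q₀ ^ n * poch pB (qB q₀) n * poch (qB q₀) (qB q₀) n :=
    fun n => rfl
  have hr : ∀ n, rhs2 q₀ n = (qInv q₀ * pB) ^ (n + 1) * poch (qInv q₀) (qInv q₀) n := by
    intro n; unfold rhs2 poch; rw [mul_comm pB]
  have zl : ∀ j n, (k - 1) + k * (j + 1) ≤ n → PowerSeries.coeff j (lhs2 q₀ n) = 0 := by
    intro j n hn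
    have h1 : (PowerSeries.X : B) ^ (j + 1) ∣ lhs2 q₀ n := by
      rw [hl]; exact Dvd.dvd.mul_left (key _ hcq' (j + 1) n hn) _
    exact PowerSeries.X_pow_dvd_iff.mp h1 j (by omega)
  have zr : ∀ j n, (k - 1) + k * (j + 1) ≤ n → PowerSeries.coeff j (rhs2 q₀ n) = 0 := by
    intro j n hn
    have h1 : (PowerSeries.X : B) ^ (j + 1) ∣ rhs2 q₀ n := by
      rw [hr]; exact Dvd.dvd.mul_left (key _ hcy (j + 1) n hn) _
    exact PowerSeries.X_pow_dvd_iff.mp h1 j (by omega)
  refine ⟨?_, ?_, ?_⟩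
  · intro j
    apply (Set.finite_lt_nat ((k - 1) + k * (j + 1))).subset
    intro n hn
    by_contra hc
    exact hn (zl j n (by simpa using hc))
  · intro j
    apply (Set.finite_lt_nat ((k - 1) + k * (j + 1))).subset
    intro n hn
    by_contra hc
    exact hn (zr j n (by simpa using hc))
  · ext1 j
    unfold value2
    rw [PowerSeries.coeff_mk, PowerSeries.coeff_mk]
    set n₀ := (k - 1) + k * (j + 1) with hn₀
    have s1 : ∑ᶠ n, PowerSeries.coeff j (lhs2 q₀ n)
        = PowerSeries.coeff j (L (qB q₀) pB n₀) := by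
      rw [finsum_eq_sum_of_support_subset (s := range n₀)]
      · unfold L; rw [map_sum]; exact sum_congr rfl fun n _ => by rw [hl]
      · intro n hn
        rw [Function.mem_support] at hn
        by_contra hc
        exact hn (zl j n (by simpa using hc))
    have s2 : ∑ᶠ n, PowerSeries.coeff j (rhs2 q₀ n)
        = PowerSeries.coeff j (G (qInv q₀) pB n₀) := by
      rw [finsum_eq_sum_of_support_subset (s := range n₀)]
      · unfold G; rw [map_sum]; exact sum_congr rfl fun n _ => by rw [hr]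
      · intro n hn
        rw [Function.mem_support] at hn
        by_contra hc
        exact hn (zr j n (by simpa using hc))
    rw [s1, s2, ← sub_eq_zero, ← map_sub]
    have hdiv : ∀ N : ℕ, (Polynomial.X : Polynomial ℂ) ^ N ∣
        PowerSeries.coeff j (L (qB q₀) pB n₀ - G (qInv q₀) pB n₀) := by
      intro N
      have h1 := diff_mem (qInv q₀) (qB q₀) pB ((PowerSeries.X : B) ^ (j + 1)) hqy n₀ N
        (key _ hcq' (j + 1) n₀ le_rfl) (key _ hcy (j + 1) n₀ le_rfl) N
      have e : pB * qInv q₀ ^ N * qB q₀ ^ N = pB := by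
        rw [mul_assoc, ← mul_pow, mul_comm (qInv q₀), hqy, one_pow, mul_one]
      rw [e, Ideal.mem_span_pair] at h1
      obtain ⟨a, b, hab⟩ := h1
      rw [← hab, map_add]
      have h2 : PowerSeries.coeff j (b * PowerSeries.X ^ (j + 1)) = 0 :=
        PowerSeries.X_pow_dvd_iff.mp (Dvd.intro_left b rfl) j (by omega)
      rw [h2, add_zero]
      have h3 : pB ^ N = PowerSeries.C ((Polynomial.X : Polynomial ℂ) ^ N) := by
        unfold pB; rw [map_pow]
      rw [h3, PowerSeries.coeff_mul_C]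
      exact Dvd.intro_left _ rfl
    ext d
    rw [Polynomial.coeff_zero]
    exact Polynomial.X_pow_dvd_iff.mp (hdiv (d + 1)) d (by omega)

end

end Pool.Agent.Q35.IntOrd

namespace Pool.Agent.Results.MP_12a8d1_co.RootsOfUnity

open Pool.Agent.Q35.IntOrd

/-- Q1 and Q2 of the problem: whenever `p₀, q₀` are `k`-th roots of unity and both sides of (1)
converge in `ℂ[[p-p₀, q-q₀]]` they converge to the same series, and for each root of unity `q₀`
both sides of (2) converge in `ℂ[p][[q-q₀]]`, to the same series. -/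
theorem result :
    (∀ (k : ℕ) (p₀ q₀ : ℂ), 1 ≤ k → p₀ ^ k = 1 → q₀ ^ k = 1 →
      Converges (lhs1 p₀ q₀) → Converges (rhs1 p₀ q₀) →
        value (lhs1 p₀ q₀) = value (rhs1 p₀ q₀)) ∧
    (∀ (k : ℕ) (q₀ : ℂ), 1 ≤ k → q₀ ^ k = 1 →
      Converges2 (lhs2 q₀) ∧ Converges2 (rhs2 q₀) ∧ value2 (lhs2 q₀) = value2 (rhs2 q₀)) :=
  ⟨fun k p₀ q₀ hk hp hq hL _ => one_main k hk p₀ q₀ hp hq hL,
   fun k q₀ hk hq => two_main k hk q₀ hq⟩

end Pool.Agent.Results.MP_12a8d1_co.RootsOfUnity
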